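import Mathlib

/-!
Almost invariant functions on the symmetric group of an infinite set `X`, for all infinite cardinals
`κ < 2 ^ #X` (adapted from the library module `H15.Sym`, which treats `κ < 𝔠` with infinite subsets; here
all the sets have the cardinality of `X`).
-/

set_option autoImplicit false

namespace Pool.Agent.KS6_12.EB

open Set Cardinal Equiv

universe u

variable {X : Type u}

/-- Permutations fixing `A` pointwise. -/
def K (A : Set X) : Set (Perm X) := {k | ∀ a ∈ A, k a = a}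

/-- `A` has the cardinality of the whole set. -/
def Fu (A : Set X) : Prop := #A = #X

theorem fu_of_le {A : Set X} (h : #X ≤ #A) : Fu A := le_antisymm (mk_set_le A) h

theorem Fu.mono {A B : Set X} (hA : Fu A) (h : A ⊆ B) : Fu B :=
  fu_of_le (hA.symm.le.trans (mk_le_mk_of_subset h))

theorem fu_union [Infinite X] {A B : Set X} (h : Fu (A ∪ B)) : Fu A ∨ Fu B := by
  by_contra! hc
  have hA : #A < #X := lt_of_le_of_ne (mk_set_le A) hc.1
  have hB : #B < #X := lt_of_le_of_ne (mk_set_le B) hc.2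
  exact ((mk_union_le A B).trans_lt (add_lt_of_lt (aleph0_le_mk X) hA hB)).ne h

theorem big [Infinite X] {A : Set X} (hA : Fu A) : 2 ^ #X ≤ #(K Aᶜ) := by
  classical
  have hA' : #A = #X := hA
  have : Infinite A := by rw [Cardinal.infinite_iff, hA']; exact aleph0_le_mk X
  refine le_trans ?_ (mk_le_of_injective (f := fun p : Perm A =>
    (⟨Perm.ofSubtype p, fun a ha => Perm.ofSubtype_apply_of_not_mem p ha⟩ : K Aᶜ))
    fun p q h => Perm.ofSubtype_injective (congrArg Subtype.val h))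
  rw [mk_perm_eq_two_power, hA']

theorem half [Infinite X] {S : Set X} (h : Fu S) : ∃ D ⊆ S, Fu D ∧ Fu (S \ D) := by
  obtain ⟨e⟩ : Nonempty (X ⊕ X ≃ S) := Cardinal.eq.1 (by
    have h' : #S = #X := h
    rw [h', mk_sum, lift_id, add_eq_self (aleph0_le_mk X)])
  have i : Function.Injective fun n => (e n).1 := Subtype.val_injective.comp e.injective
  refine ⟨range fun n => (e (.inl n)).1, by rintro _ ⟨n, rfl⟩; exact (e _).2, fu_of_le ?_, fu_of_le ?_⟩
  · exact mk_le_of_injective (f := fun n => (⟨_, ⟨n, rfl⟩⟩ : range fun n => (e (.inl n)).1))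
      fun a b hab => Sum.inl_injective (i (Subtype.ext_iff.1 hab :))
  · refine mk_le_of_injective (f := fun n => (⟨(e (.inr n)).1, (e _).2, ?_⟩ :
      ↥(S \ range fun n => (e (.inl n)).1))) fun a b hab => Sum.inr_injective (i (Subtype.ext_iff.1 hab :))
    rintro ⟨m, k⟩
    have := i k
    simp at this

theorem spl [Infinite X] {A A' : Set X} (h : Fu A) (h' : Fu A') :
    ∃ D : Set X, Fu D ∧ Fu (A \ D) ∧ Fu (A' \ D) := by
  rcases fu_union (h.mono (inter_union_sdiff A A').ge) with k | k <;>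
    obtain ⟨D, d1, d2, d3⟩ := half k
  · exact ⟨D, d2, d3.mono fun x hx => ⟨hx.1.1, hx.2⟩, d3.mono fun x hx => ⟨hx.1.2, hx.2⟩⟩
  · exact ⟨D, d2, d3.mono fun x hx => ⟨hx.1.1, hx.2⟩, h'.mono fun x hx => ⟨hx, fun n => (d1 n).2 hx⟩⟩

theorem dec [Infinite X] (g : Perm X) : ∃ h : Perm X, ∃ A A' : Set X,
    Fu A ∧ Fu A' ∧ h ∈ K A ∧ h⁻¹ * g ∈ K A' := by
  classical
  obtain ⟨D, U, di, ui, k1, k2⟩ : ∃ D U : Set X, Fu D ∧ Fu U ∧ (∀ x ∈ D, x ∉ U) ∧ ∀ x ∈ D, g x ∉ U := by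
    obtain ⟨S, s1, s2, s3⟩ := half (S := (univ : Set X)) (mk_univ)
    obtain ⟨U, u1, u2, u3⟩ := half s3
    rcases fu_union (s2.mono (inter_union_sdiff S (g ⁻¹' U)).ge) with k | k
    · exact ⟨_, _, k, u3, fun x hx n => n.1.2 hx.1, fun x hx n => n.2 hx.2⟩
    · exact ⟨_, U, k, u2, fun x hx n => (u1 n).2 hx.1, fun x hx => hx.2⟩
  obtain ⟨W, w1, w2, w3⟩ := half ui
  let E := (D ∪ g '' D ∪ W)ᶜ
  have e1 : ∀ x ∈ E, x ∉ D := fun x hx n => hx (.inl (.inl n))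
  have e2 : ∀ x ∈ D, g x ∉ E := fun x hx n => n (.inl (.inr ⟨x, hx, rfl⟩))
  let φ : ↥(D ∪ E) ↪ X := ⟨fun x => if x.1 ∈ D then g x else x, by
    rintro ⟨x, hx⟩ ⟨y, hy⟩ k
    dsimp only at k
    split_ifs at k with a b b
    · exact Subtype.ext (g.injective k)
    · exact (e2 x a (k ▸ hy.resolve_left b)).elim
    · exact (e2 y b (k ▸ hx.resolve_left a)).elim
    · exact Subtype.ext k⟩
  have wE : ∀ x ∈ W, x ∉ E := fun x hx n => n (.inr hx)
  have f1 : #↥(D ∪ E)ᶜ = #X := w2.mono fun x hx n =>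
    n.elim (fun n => k1 x n (w1 hx)) (wE x hx)
  have f2 : #↥(range φ)ᶜ = #X := w2.mono (B := (range φ)ᶜ) (by
    rintro _ hx ⟨⟨x, h⟩, rfl⟩
    by_cases a : x ∈ D
    · exact k2 x a (w1 (by rwa [show φ ⟨x, h⟩ = g x from if_pos a] at hx))
    · exact wE x (by rwa [show φ ⟨x, h⟩ = x from if_neg a] at hx) (h.resolve_left a))
  obtain ⟨h, hh⟩ := extend_function φ (Cardinal.eq.1 (f1.trans f2.symm))
  refine ⟨h, E, D, w3.mono ?_, di, fun a ha => (hh ⟨a, .inr ha⟩).trans (if_neg (e1 a ha)),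
    fun a ha => Perm.inv_eq_iff_eq.2 ((hh ⟨a, .inl ha⟩).trans (if_pos ha)).symm⟩
  rintro x hx ((n | ⟨y, n, rfl⟩) | n)
  exacts [k1 x n hx.1, k2 y n hx.1, hx.2 n]

variable {κ : Cardinal.{u}} (h0 : ℵ₀ ≤ κ) (h1 : κ < 2 ^ #X) {f : Perm X → ℝ} {C : ℝ}
  (H : ∀ g, #{x | C < |f (g * x) - f x|} < κ)

include h0 in
theorem esc {Z T : Set (Perm X)} (hZ : κ < #Z) (hT : #T ≤ κ) (b : Perm X → Set (Perm X))
    (hb : ∀ x, #(b x) < κ) : ∃ z ∈ Z, ∀ x ∈ T, z ∉ b x := by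
  by_contra! n
  refine hZ.not_ge ((mk_le_mk_of_subset (t := ⋃ x : T, b x) fun z hz => ?_).trans
    ((mk_iUnion_le _).trans ((mul_le_mul' hT (ciSup_le' fun x : T => (hb x).le)).trans_eq
      (mul_eq_self h0))))
  obtain ⟨x, a, c⟩ := n z hz
  exact mem_iUnion.2 ⟨⟨x, a⟩, c⟩

theorem pick {S B : Set (Perm X)} (hS : κ ≤ #S) (hB : #B < κ) : ∃ x ∈ S, x ∉ B :=
  not_subset.1 fun n => (hB.trans_le hS).not_ge (mk_le_mk_of_subset n)

include h0 h1

include H in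
theorem ca [Infinite X] {A : Set X} (hA : Fu A) {t : ℝ} (h : κ ≤ #{k | k ∈ K A ∧ |f k| ≤ t}) :
    #{k | k ∈ K A ∧ t + 4 * C < |f k|} < κ := by
  by_contra! n
  obtain ⟨S, s1, s2⟩ := le_mk_iff_exists_subset.1 h
  obtain ⟨T, t1, t2⟩ := le_mk_iff_exists_subset.1 n
  obtain ⟨z, hz, k⟩ := esc h0 (h1.trans_le (big hA)) (T := S ∪ T)
    ((mk_union_le _ _).trans_eq (by rw [s2, t2, add_eq_self h0])) _ H
  have c : ∀ x ∈ K A, z * x = x * z := fun x hx => (Perm.Disjoint.commute fun a =>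
    (em (a ∈ A)).elim (fun n => .inr (hx a n)) fun n => .inl (hz a n)).eq
  obtain ⟨x, x1, x2⟩ := pick s2.ge (H z)
  obtain ⟨y, y1, y2⟩ := pick t2.ge (H z)
  have x3 := k x (.inl x1)
  have y3 := k y (.inr y1)
  simp only [mem_ofPred, not_lt, c x (s1 x1).1, c y (t1 y1).1, abs_le] at x2 x3 y2 y3
  have x4 := abs_le.1 (s1 x1).2
  exact (t1 y1).2.not_ge (abs_le.2 ⟨by linarith, by linarith⟩)

theorem gr [Infinite X] {A A' D : Set X} (hD : Fu D) (d : A ⊆ Dᶜ) (d' : A' ⊆ Dᶜ) {t : ℝ}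
    (h : #{k | k ∈ K A ∧ t < |f k|} < κ) : κ ≤ #{k | k ∈ K A' ∧ |f k| ≤ t} := by
  by_contra! n
  refine (h1.le.trans (big hD)).not_gt (((mk_le_mk_of_subset fun k hk => ?_).trans
    (mk_union_le _ _)).trans_lt (add_lt_of_lt h0 h n))
  exact (lt_or_ge t |f k|).imp (fun m => ⟨fun a ha => hk a (d ha), m⟩)
    fun m => ⟨fun a ha => hk a (d' ha), m⟩

include H in
theorem step [Infinite X] {A A' : Set X} (hA : Fu A) (hA' : Fu A') {t : ℝ}
    (h : κ ≤ #{k | k ∈ K A ∧ |f k| ≤ t}) : #{k | k ∈ K A' ∧ t + 4 * C + 4 * C < |f k|} < κ := by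
  obtain ⟨D, d1, d2, d3⟩ := spl hA hA'
  refine lt_of_le_of_lt (mk_le_mk_of_subset ?_)
    (ca h0 h1 H d3 (gr h0 h1 d1 (fun _ k => k.2) (fun _ k => k.2) (ca h0 h1 H d2 (t := t)
      (h.trans (mk_le_mk_of_subset ?_))))) <;>
  exact fun k hk => ⟨fun a ha => hk.1 a ha.1, hk.2⟩

include H in
/-- An almost invariant function on a symmetric group is almost constant. -/
theorem main [Infinite X] (hC : 0 < C) : ∃ v, #{x | 26 * C < |f x - v|} < κ := by
  obtain ⟨A, -, a1, a2⟩ := half (S := (univ : Set X)) mk_univ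
  rw [← compl_eq_univ_sdiff] at a2
  have b := h1.trans_le (big a1)
  obtain ⟨v, hv⟩ : ∃ v, κ ≤ #{k | k ∈ K Aᶜ ∧ |f (k * 1) - v| ≤ C} := by
    by_contra! n
    refine b.not_ge ((mk_le_mk_of_subset
      (t := ⋃ q : ULift.{u} ℚ, {k | k ∈ K Aᶜ ∧ |f (k * 1) - q.down| ≤ C}) fun k hk => ?_).trans
      ((mk_iUnion_le _).trans ((mul_le_mul' (by simpa using h0)
        (ciSup_le' fun q => (n _).le)).trans_eq (mul_eq_self h0))))
    obtain ⟨q, hq⟩ := exists_rat_near (f (k * 1)) hC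
    exact mem_iUnion.2 ⟨⟨q⟩, hk, hq.le⟩
  have H' : ∀ y g, #{x | C < |f (g * x * y) - v - (f (x * y) - v)|} < κ := fun y g =>
    (mk_le_of_injective (f := fun x : {x | C < |f (g * x * y) - v - (f (x * y) - v)|} =>
      (⟨x.1 * y, by simpa [mul_assoc] using x.2⟩ : {x | C < |f (g * x) - f x|}))
      fun p q h => Subtype.ext (mul_right_cancel (congrArg Subtype.val h))).trans_lt (H g)
  let Q := fun y t => ∀ B : Set X, Fu B → #{k | k ∈ K B ∧ t < |f (k * y) - v|} < κ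
  have s : ∀ y t h B, Q y t → Fu B → h ∈ K B → Q (h * y) (t + 4 * C + 4 * C) := by
    intro y t h B q hB hh B' hB'
    obtain ⟨D, -, d1, d2⟩ := half hB
    refine step h0 h1 (f := fun x => f (x * (h * y)) - v) (H' _) d2 hB'
      ((gr h0 h1 (f := fun x => f (x * y) - v) (A' := B \ D) d1 (fun _ k => k.2) (fun _ k => k.2)
        (q _ d2)).trans (mk_le_of_injective (f := fun x => ⟨x.1 * h⁻¹, fun a ha => ?_, ?_⟩)
        fun p q h => Subtype.ext (mul_right_cancel (congrArg Subtype.val h))))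
    · rw [Perm.mul_apply, Perm.inv_eq_iff_eq.2 (hh a ha.1).symm, x.2.1 a ha]
    · simpa [mul_assoc] using x.2.2
  have q : ∀ y, Q y (C + 4 * C + 4 * C + 4 * C + 4 * C + 4 * C + 4 * C) := fun y => by
    obtain ⟨h, B, B', b1, b2, b3, b4⟩ := dec y
    have q1 : Q 1 (C + 4 * C + 4 * C) := fun B hB =>
      step h0 h1 (f := fun x => f (x * 1) - v) (H' 1) a2 hB hv
    have := s _ _ h B (s 1 _ (h⁻¹ * y) B' q1 b2 b4) b1 b3
    rwa [mul_one, mul_inv_cancel_left] at this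
  refine ⟨v, lt_of_not_ge fun n => ?_⟩
  obtain ⟨T, t1, t2⟩ := le_mk_iff_exists_subset.1 n
  obtain ⟨z, hz, k⟩ := esc h0 b t2.le (fun y => {k | k ∈ K Aᶜ ∧
    C + 4 * C + 4 * C + 4 * C + 4 * C + 4 * C + 4 * C < |f (k * y) - v|}) fun y => q y _ a2
  obtain ⟨x, x1, x2⟩ := pick t2.ge (H z)
  have x3 := not_lt.1 fun m => k x x1 ⟨hz, m⟩
  simp only [mem_ofPred, not_lt, abs_le] at x2 x3
  exact (show 26 * C < |f x - v| from t1 x1).not_ge (abs_le.2 ⟨by linarith, by linarith⟩)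

end Pool.Agent.KS6_12.EB
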